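import Pool.Agent.X188.Osc.Sharp

set_option autoImplicit false

/-!
# MP_38ba9c_an, Q1: `M_d = L_d = 1 + √d`
-/

open MeasureTheory Set Filter Pool.Agent.X188.Osc

namespace Pool.Agent.Results.MP_38ba9c_an.SharpConstants

/-- For every `d ≥ 1` (the problem has `d ≥ 2`):
(i) for every fixed `c > 0`, `M_d = sup_A c K(A, c) = 1 + √d`;
(ii) `L_d = sup_A liminf_{c → ∞} c K(A, c) = 1 + √d`;
(iii) `K(A, c)` is the smallest admissible constant, and `(1 + √d) / c` is admissible, for every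
positive definite `A` and every `c > 0`. -/
theorem result {d : ℕ} (hd : 1 ≤ d) :
    (∀ c : ℝ, 0 < c →
      IsLUB {x : ℝ | ∃ A : Matrix (Fin d) (Fin d) ℝ, A.PosDef ∧ x = c * bestConst A c}
        (1 + Real.sqrt d)) ∧
    IsLUB {x : ℝ | ∃ A : Matrix (Fin d) (Fin d) ℝ, A.PosDef ∧
      x = liminf (fun c : ℝ => c * bestConst A c) atTop} (1 + Real.sqrt d) ∧
    (∀ A : Matrix (Fin d) (Fin d) ℝ, A.PosDef → ∀ c : ℝ, 0 < c →
      IsLeast {K : ℝ | IsAdmissible A c K} (bestConst A c) ∧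
      IsAdmissible A c ((1 + Real.sqrt d) / c)) :=
  ⟨fun _ hc => sharp_constant hd hc, limit_constant hd,
    fun _ hA _ hc => ⟨isLeast_bestConst hA hc, admissible_general hA hc⟩⟩

end Pool.Agent.Results.MP_38ba9c_an.SharpConstants
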